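import Pool.Agent.Q91.PairFin

/-!
# Discrete minimizers of power-law interaction energies converge to continuum minimizers

For `-d < α < β` and `W(x) = -|x|^α/α + |x|^β/β` (a term with exponent `0` is a logarithm), every
sequence of minimizers of the discrete energies, suitably translated, has the property that every
subsequence of its empirical measures has a further subsequence converging narrowly to a
minimizer of the continuum energy.
-/

open MeasureTheory Filter Topology Set
open scoped ENNReal NNReal BoundedContinuousFunction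

namespace Pool.Agent.Results.MP_bbfed3_an.Convergence

open Pool.Agent.Q91.PairMin Pool.Agent.Q91.PairPot

/-- `r^γ/γ`, read as `log r` when `γ = 0`. -/
noncomputable def term (γ r : ℝ) : ℝ := if γ = 0 then Real.log r else r ^ γ / γ

open scoped Classical in
/-- The interaction potential `W(x) = -|x|^α/α + |x|^β/β` for `x ≠ 0`; at the origin it takes its
limit value, which is `+∞` for `α ≤ 0` and `0` for `α > 0`. -/
noncomputable def W {d : ℕ} (α β : ℝ) (x : EuclideanSpace ℝ (Fin d)) : EReal :=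
  if x = 0 then (if α ≤ 0 then ⊤ else 0) else ((-term α ‖x‖ + term β ‖x‖ : ℝ) : EReal)

/-- The continuum energy `(1/2) ∬ W(x-y) dρ(x) dρ(y)`: integral of the positive part minus integral
of the negative part (the latter is always finite, `W` being bounded below). -/
noncomputable def continuumEnergy {d : ℕ} (α β : ℝ)
    (ρ : Measure (EuclideanSpace ℝ (Fin d))) : EReal :=
  (((∫⁻ p, (W α β (p.1 - p.2)).toENNReal ∂(ρ.prod ρ) : ℝ≥0∞) : EReal) -
    ((∫⁻ p, (-(W α β (p.1 - p.2))).toENNReal ∂(ρ.prod ρ) : ℝ≥0∞) : EReal)) / 2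

/-- The discrete energy `(1/2) ∑_{i ≠ j} W(X_i - X_j)`. -/
noncomputable def discreteEnergy {d N : ℕ} (α β : ℝ)
    (X : Fin N → EuclideanSpace ℝ (Fin d)) : EReal :=
  (∑ i, ∑ j, if i ≠ j then W α β (X i - X j) else 0) / 2

/-- Global minimizers of the discrete energy. -/
def IsDiscreteMinimizer {d N : ℕ} (α β : ℝ) (X : Fin N → EuclideanSpace ℝ (Fin d)) : Prop :=
  ∀ Y : Fin N → EuclideanSpace ℝ (Fin d), discreteEnergy α β X ≤ discreteEnergy α β Y

/-- Global minimizers of the continuum energy over Borel probability measures. -/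
def IsContinuumMinimizer {d : ℕ} (α β : ℝ) (ρ : Measure (EuclideanSpace ℝ (Fin d))) : Prop :=
  IsProbabilityMeasure ρ ∧ ∀ ρ' : Measure (EuclideanSpace ℝ (Fin d)), IsProbabilityMeasure ρ' →
    continuumEnergy α β ρ ≤ continuumEnergy α β ρ'

theorem W_ne_zero {d : ℕ} {α β : ℝ} {x : EuclideanSpace ℝ (Fin d)} (hx : x ≠ 0) :
    W α β x = ((wR α β ‖x‖ : ℝ) : EReal) := by
  unfold W
  rw [if_neg hx]
  rfl

theorem W_zero_of_nonpos {d : ℕ} {α β : ℝ} (hα : α ≤ 0) :
    W α β (0 : EuclideanSpace ℝ (Fin d)) = ⊤ := by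
  unfold W
  rw [if_pos rfl, if_pos hα]

theorem W_zero_of_pos {d : ℕ} {α β : ℝ} (hα : 0 < α) :
    W α β (0 : EuclideanSpace ℝ (Fin d)) = 0 := by
  unfold W
  rw [if_pos rfl, if_neg (not_le.2 hα)]

theorem wR_zero {α β : ℝ} (hα : 0 < α) (hβ : 0 < β) : wR α β 0 = 0 := by
  unfold wR pot
  rw [if_neg hα.ne', if_neg hβ.ne', Real.zero_rpow hα.ne', Real.zero_rpow hβ.ne']
  simp

theorem shifted_ne_zero {d : ℕ} {α β M : ℝ} {x : EuclideanSpace ℝ (Fin d)} (hx : x ≠ 0) :
    shifted α β M x = ENNReal.ofReal (wR α β ‖x‖ + M) := by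
  unfold shifted
  rw [if_neg (fun h => hx h.1)]

/-- Pointwise: `U = W + M`. -/
theorem coe_shifted {d : ℕ} {α β M : ℝ} (h : α < β) (hM0 : 0 ≤ M) (hM : -M ≤ wR α β 1)
    (x : EuclideanSpace ℝ (Fin d)) :
    ((shifted α β M x : ℝ≥0∞) : EReal) = W α β x + (M : EReal) := by
  by_cases hx : x = 0
  · subst hx
    rcases le_or_gt α 0 with hα | hα
    · rw [W_zero_of_nonpos hα]
      unfold shifted
      rw [if_pos ⟨rfl, hα⟩, EReal.top_add_coe]
      rfl
    · rw [W_zero_of_pos hα]
      unfold shifted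
      rw [if_neg (fun h' => absurd h'.2 (not_le.2 hα)), norm_zero, wR_zero hα (hα.trans h),
        zero_add, zero_add, EReal.coe_ennreal_ofReal, max_eq_left hM0]
  · rw [W_ne_zero hx, shifted_ne_zero hx, EReal.coe_ennreal_ofReal, max_eq_left, EReal.coe_add]
    have := wR_ge h.le (norm_pos_iff.2 hx)
    linarith

/-- Pointwise, in `[0,∞]`: `U + W⁻ = W⁺ + M`. -/
theorem shifted_add {d : ℕ} {α β M : ℝ} (h : α < β) (hM0 : 0 ≤ M) (hM : -M ≤ wR α β 1)
    (x : EuclideanSpace ℝ (Fin d)) :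
    shifted α β M x + (-(W α β x)).toENNReal = (W α β x).toENNReal + ENNReal.ofReal M := by
  by_cases hx : x = 0
  · subst hx
    rcases le_or_gt α 0 with hα | hα
    · rw [W_zero_of_nonpos hα]
      unfold shifted
      rw [if_pos ⟨rfl, hα⟩]
      simp
    · rw [W_zero_of_pos hα]
      unfold shifted
      rw [if_neg (fun h' => absurd h'.2 (not_le.2 hα)), norm_zero, wR_zero hα (hα.trans h)]
      simp
  · rw [W_ne_zero hx, shifted_ne_zero hx]
    have h1 := wR_ge h.le (norm_pos_iff.2 hx)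
    set w := wR α β ‖x‖ with hw
    have e1 : (((w : ℝ) : EReal)).toENNReal = ENNReal.ofReal w := by
      rw [EReal.toENNReal_of_ne_top (EReal.coe_ne_top _), EReal.toReal_coe]
    have e2 : (-((w : ℝ) : EReal)).toENNReal = ENNReal.ofReal (-w) := by
      rw [← EReal.coe_neg, EReal.toENNReal_of_ne_top (EReal.coe_ne_top _), EReal.toReal_coe]
    rw [e1, e2]
    rcases le_total 0 w with h2 | h2
    · rw [ENNReal.ofReal_of_nonpos (by linarith : -w ≤ 0), add_zero, ENNReal.ofReal_add h2 hM0]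
    · rw [ENNReal.ofReal_of_nonpos h2, zero_add, ← ENNReal.ofReal_add (by linarith) (by linarith)]
      congr 1
      ring

theorem ereal_sub {a b c d : ℝ≥0∞} (hb : b ≠ ⊤) (hd : d ≠ ⊤) (h : a + b = c + d) :
    (c : EReal) - (b : EReal) = (a : EReal) - (d : EReal) := by
  lift b to ℝ≥0 using hb
  lift d to ℝ≥0 using hd
  by_cases hc : c = ⊤
  · have ha : a = ⊤ := by
      rw [hc, top_add] at h
      rcases ENNReal.add_eq_top.1 h with h | h
      · exact h
      · exact absurd h ENNReal.coe_ne_top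
    rw [hc, ha]
    rw [EReal.coe_ennreal_top]
    rfl
  · have ha : a ≠ ⊤ := by
      intro ha
      rw [ha, top_add] at h
      rcases ENNReal.add_eq_top.1 h.symm with h | h
      · exact hc h
      · exact absurd h ENNReal.coe_ne_top
    lift c to ℝ≥0 using hc
    lift a to ℝ≥0 using ha
    have h' : (a : ℝ) + b = c + d := by exact_mod_cast h
    have e : (c : ℝ) - b = a - d := by linarith
    rw [EReal.coe_nnreal_eq_coe_real, EReal.coe_nnreal_eq_coe_real, EReal.coe_nnreal_eq_coe_real,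
      EReal.coe_nnreal_eq_coe_real, ← EReal.coe_sub, ← EReal.coe_sub, e]

theorem measurable_W {d : ℕ} (α β : ℝ) :
    Measurable (W α β : EuclideanSpace ℝ (Fin d) → EReal) := by
  unfold W
  refine Measurable.ite (measurableSet_singleton 0) measurable_const ?_
  have hterm : ∀ γ : ℝ, Measurable (term γ) := by
    intro γ
    unfold term
    by_cases hγ : γ = 0
    · simp only [if_pos hγ]
      exact Real.measurable_log
    · simp only [if_neg hγ]
      exact (measurable_id.pow_const γ).div_const γ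
  exact measurable_coe_real_ereal.comp
    (((hterm α).comp measurable_norm).neg.add ((hterm β).comp measurable_norm))

theorem continuumEnergy_eq {d : ℕ} {α β M : ℝ} (h : α < β) (hM0 : 0 ≤ M) (hM : -M ≤ wR α β 1)
    (ρ : Measure (EuclideanSpace ℝ (Fin d))) [IsProbabilityMeasure ρ] :
    continuumEnergy α β ρ =
      (((pairEnergy (shifted α β M) ρ : ℝ≥0∞) : EReal) - ((ENNReal.ofReal M : ℝ≥0∞) : EReal)) /
        2 := by
  unfold continuumEnergy
  have hsub : Measurable fun p : EuclideanSpace ℝ (Fin d) × EuclideanSpace ℝ (Fin d) =>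
      p.1 - p.2 := measurable_fst.sub measurable_snd
  have hmneg : Measurable fun p : EuclideanSpace ℝ (Fin d) × EuclideanSpace ℝ (Fin d) =>
      (-(W α β (p.1 - p.2))).toENNReal :=
    (((measurable_W α β).comp hsub).neg).ereal_toENNReal
  have hneg : ∫⁻ p, (-(W α β (p.1 - p.2))).toENNReal ∂(ρ.prod ρ) ≠ ⊤ := by
    have h1 : ∀ p : EuclideanSpace ℝ (Fin d) × EuclideanSpace ℝ (Fin d),
        (-(W α β (p.1 - p.2))).toENNReal ≤ ENNReal.ofReal M := by
      intro p
      by_cases hx : p.1 - p.2 = 0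
      · rw [hx]
        rcases le_or_gt α 0 with hα | hα
        · rw [W_zero_of_nonpos hα]
          simp
        · rw [W_zero_of_pos hα]
          simp
      · rw [W_ne_zero hx, ← EReal.coe_neg, EReal.toENNReal_of_ne_top (EReal.coe_ne_top _),
          EReal.toReal_coe]
        refine ENNReal.ofReal_le_ofReal ?_
        have := wR_ge h.le (norm_pos_iff.2 hx)
        linarith
    refine ne_top_of_le_ne_top (ENNReal.ofReal_ne_top (r := M)) ?_
    calc ∫⁻ p, (-(W α β (p.1 - p.2))).toENNReal ∂(ρ.prod ρ) ≤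
        ∫⁻ _p, ENNReal.ofReal M ∂(ρ.prod ρ) := lintegral_mono h1
      _ = ENNReal.ofReal M := by rw [lintegral_const, measure_univ, mul_one]
  have hsum : pairEnergy (shifted α β M) ρ +
      ∫⁻ p, (-(W α β (p.1 - p.2))).toENNReal ∂(ρ.prod ρ) =
      (∫⁻ p, (W α β (p.1 - p.2)).toENNReal ∂(ρ.prod ρ)) + ENNReal.ofReal M := by
    unfold pairEnergy
    rw [← lintegral_add_right _ hmneg]
    have h2 : ENNReal.ofReal M = ∫⁻ _p, ENNReal.ofReal M ∂(ρ.prod ρ) := by
      rw [lintegral_const, measure_univ, mul_one]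
    conv_rhs => rw [h2]
    rw [← lintegral_add_right _ measurable_const]
    exact lintegral_congr fun p => shifted_add h hM0 hM _
  rw [ereal_sub hneg ENNReal.ofReal_ne_top hsum]

theorem coe_real_sum {ι : Type*} (s : Finset ι) (f : ι → ℝ) :
    ((∑ i ∈ s, f i : ℝ) : EReal) = ∑ i ∈ s, ((f i : ℝ) : EReal) := by
  classical
  induction s using Finset.induction_on with
  | empty => simp
  | insert a s ha ih => rw [Finset.sum_insert ha, Finset.sum_insert ha, EReal.coe_add, ih]

theorem coe_ennreal_sum {ι : Type*} (s : Finset ι) (f : ι → ℝ≥0∞) :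
    ((∑ i ∈ s, f i : ℝ≥0∞) : EReal) = ∑ i ∈ s, ((f i : ℝ≥0∞) : EReal) := by
  classical
  induction s using Finset.induction_on with
  | empty => simp
  | insert a s ha ih => rw [Finset.sum_insert ha, Finset.sum_insert ha, EReal.coe_ennreal_add, ih]

/-- The discrete sum in terms of the shifted potential. -/
theorem coe_pairSum {d N : ℕ} {α β M : ℝ} (h : α < β) (hM0 : 0 ≤ M) (hM : -M ≤ wR α β 1)
    (X : Fin N → EuclideanSpace ℝ (Fin d)) :
    ((pairSum (shifted α β M) Finset.univ X : ℝ≥0∞) : EReal) =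
      (∑ i, ∑ j, if i ≠ j then W α β (X i - X j) else 0) +
      ((∑ i : Fin N, ∑ j : Fin N, if i ≠ j then M else 0 : ℝ) : EReal) := by
  unfold pairSum
  rw [coe_real_sum, coe_ennreal_sum]
  rw [← Finset.sum_add_distrib]
  refine Finset.sum_congr rfl fun i _ => ?_
  rw [coe_real_sum, coe_ennreal_sum, ← Finset.sum_add_distrib]
  refine Finset.sum_congr rfl fun j _ => ?_
  by_cases hij : i ≠ j
  · rw [if_pos hij, if_pos hij, if_pos hij]
    exact coe_shifted h hM0 hM _
  · rw [if_neg hij, if_neg hij, if_neg hij]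
    simp

theorem pairSum_eq_sMin {d N : ℕ} {α β M : ℝ} (h : α < β) (hM0 : 0 ≤ M) (hM : -M ≤ wR α β 1)
    (X : Fin N → EuclideanSpace ℝ (Fin d)) (hX : IsDiscreteMinimizer α β X) :
    pairSum (shifted α β M) Finset.univ X =
      sMin (shifted α β M : EuclideanSpace ℝ (Fin d) → ℝ≥0∞) N := by
  unfold sMin
  refine le_antisymm (le_iInf fun Y => ?_) (iInf_le _ X)
  have h1 := hX Y
  unfold discreteEnergy at h1
  have h2 := (EReal.strictMono_div_right_of_pos (b := 2) (by norm_num)
    (by exact EReal.coe_ne_top 2)).le_iff_le.1 h1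
  have h3 : ((pairSum (shifted α β M) Finset.univ X : ℝ≥0∞) : EReal) ≤
      ((pairSum (shifted α β M) Finset.univ Y : ℝ≥0∞) : EReal) := by
    rw [coe_pairSum h hM0 hM, coe_pairSum h hM0 hM]
    exact add_le_add h2 le_rfl
  exact_mod_cast h3

/-- **Discrete minimizers converge to continuum minimizers** for all `d ≥ 1`, `-d < α < β`: for
all configurations `X k` of `n k` particles (`n k → ∞`) minimizing the discrete energy there are
translations `a k` such that every subsequence of the translated empirical measures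
`(1/n_k) ∑ δ_{X_i - a_k}` has a further subsequence converging narrowly to a minimizer of the
continuum energy. -/
theorem result (d : ℕ) (hd : 1 ≤ d) (α β : ℝ) (hα : -(d : ℝ) < α) (hαβ : α < β)
    (n : ℕ → ℕ) (hn : Tendsto n atTop atTop) (X : ∀ k, Fin (n k) → EuclideanSpace ℝ (Fin d))
    (hX : ∀ k, IsDiscreteMinimizer α β (X k)) :
    ∃ a : ℕ → EuclideanSpace ℝ (Fin d), ∀ φ : ℕ → ℕ, StrictMono φ →
      ∃ ψ : ℕ → ℕ, StrictMono ψ ∧ ∃ ρ : Measure (EuclideanSpace ℝ (Fin d)),
        IsContinuumMinimizer α β ρ ∧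
        ∀ f : EuclideanSpace ℝ (Fin d) →ᵇ ℝ,
          Tendsto (fun k => (n (φ (ψ k)) : ℝ)⁻¹ * ∑ i, f (X (φ (ψ k)) i - a (φ (ψ k))))
            atTop (𝓝 (∫ x, f x ∂ρ)) := by
  set M : ℝ := |wR α β 1| with hMdef
  have hM0 : 0 ≤ M := abs_nonneg _
  have hM : -M ≤ wR α β 1 := neg_abs_le _
  have hpX : ∀ k, pairSum (shifted α β M) Finset.univ (X k) =
      sMin (shifted α β M : EuclideanSpace ℝ (Fin d) → ℝ≥0∞) (n k) :=
    fun k => pairSum_eq_sMin hαβ hM0 hM (X k) (hX k)
  -- a measure of energy below the level at infinity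
  obtain ⟨ρ0, m, R, hρ0, hmtop, h0, hR, hm⟩ : ∃ (ρ0 : Measure (EuclideanSpace ℝ (Fin d)))
      (m : ℝ≥0∞) (R : ℝ), IsProbabilityMeasure ρ0 ∧ m ≠ ⊤ ∧
      pairEnergy (shifted α β M) ρ0 < m ∧ 0 < R ∧
      ∀ x : EuclideanSpace ℝ (Fin d), R ≤ ‖x‖ → m ≤ shifted α β M x := by
    have hfar : ∀ m : ℝ≥0∞, m ≠ ⊤ → (∀ᶠ r in atTop, m.toReal ≤ wR α β r + M) →
        ∃ R : ℝ, 0 < R ∧ ∀ x : EuclideanSpace ℝ (Fin d), R ≤ ‖x‖ → m ≤ shifted α β M x := by
      intro m hm hev
      obtain ⟨R, hR⟩ := eventually_atTop.1 hev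
      refine ⟨max R 1, lt_of_lt_of_le one_pos (le_max_right _ _), fun x hx => ?_⟩
      have hx0 : x ≠ 0 := by
        rintro rfl
        rw [norm_zero] at hx
        have := le_max_right R 1
        linarith
      rw [shifted_ne_zero hx0, ← ENNReal.ofReal_toReal hm]
      exact ENNReal.ofReal_le_ofReal (hR _ (le_trans (le_max_left _ _) hx))
    rcases le_or_gt 0 β with hβ | hβ
    · obtain ⟨ρ0, hρ0, hfin⟩ := exists_finite_energy hd (β := β) hα M
      have hmtop : pairEnergy (shifted α β M) ρ0 + 1 ≠ ⊤ :=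
        ENNReal.add_ne_top.2 ⟨hfin.ne, ENNReal.one_ne_top⟩
      obtain ⟨R, hR, hR2⟩ := hfar _ hmtop (by
        filter_upwards [(tendsto_wR_atTop hβ hαβ).eventually_ge_atTop
          ((pairEnergy (shifted α β M) ρ0 + 1).toReal - M)] with r hr
        linarith)
      exact ⟨ρ0, _, R, hρ0, hmtop, ENNReal.lt_add_right hfin.ne one_ne_zero, hR, hR2⟩
    · obtain ⟨ρ0, hρ0, hneg⟩ := exists_negative_energy hd hα hαβ hβ hM
      obtain ⟨m, hm1, hm2⟩ := exists_between hneg
      have hmtop : m ≠ ⊤ := (hm2.trans_le le_top).ne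
      have hm3 : m.toReal < M := by
        have := (ENNReal.toReal_lt_toReal hmtop ENNReal.ofReal_ne_top).2 hm2
        rwa [ENNReal.toReal_ofReal hM0] at this
      obtain ⟨R, hR, hR2⟩ := hfar m hmtop (by
        filter_upwards [(tendsto_wR_neg (hαβ.trans hβ) hβ).eventually_const_lt
          (show m.toReal - M < 0 by linarith)] with r hr
        linarith)
      exact ⟨ρ0, m, R, hρ0, hmtop, hm1, hR, hR2⟩
  obtain ⟨a, ha⟩ := accumulation (continuous_shifted M hαβ) ρ0 hmtop h0 hR hm n hn X hpX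
  refine ⟨a, fun φ hφ => ?_⟩
  obtain ⟨ψ, hψ, ρ, hρ, hmin, hlim⟩ := ha φ hφ
  refine ⟨ψ, hψ, ρ, ⟨hρ, fun ρ' hρ' => ?_⟩, hlim⟩
  rw [continuumEnergy_eq hαβ hM0 hM ρ, continuumEnergy_eq hαβ hM0 hM ρ']
  refine EReal.div_le_div_right_of_nonneg (by norm_num) ?_
  refine EReal.sub_le_sub ?_ le_rfl
  exact_mod_cast hmin ρ' hρ'

end Pool.Agent.Results.MP_bbfed3_an.Convergence
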